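import Pool.Agent.Helper96.BTN.Main
import Pool.Agent.Helper99.NK.Times

/-!
# Boolean programs of length `c N log N`: the theorem with one parameter
-/

set_option autoImplicit false

namespace Pool.Agent.Helper60.BL

open Pool.Agent.Helper19.NF Pool.Agent.Helper74.NW Pool.Agent.Helper96.BT
open Pool.Agent.Helper96.PH (Det)
open Pool.Agent.Helper43.BT (evalCode)
open Pool.Agent.Helper99.NK (times)

/-- the powers of `N = s ^ 122000` -/
theorem rpow_facts {b s N : ℕ} {c : ℝ} (hs : s = 2 ^ b) (hN : N = s ^ 122000)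
    (hc : c = 1 / 122000) :
    (N : ℝ) ^ c = s ∧ (N : ℝ) ^ (-c) = 1 / s ∧ c * Real.logb 2 N = b ∧
      (N : ℝ) ^ (1 - c) = N * (1 / s) ∧ (N : ℝ) ^ ((121 : ℝ) / 122) = (s : ℝ) ^ 121000 := by
  have hs0 : (0 : ℝ) < s := by rw [hs]; positivity
  have hNr : (N : ℝ) = (s : ℝ) ^ 122000 := by rw [hN]; push_cast; rfl
  have hN0 : (0 : ℝ) < N := by rw [hNr]; positivity
  have h1 : (N : ℝ) ^ c = s := by
    rw [hNr, hc, ← Real.rpow_natCast, ← Real.rpow_mul hs0.le]
    norm_num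
  have h2 : (N : ℝ) ^ (-c) = 1 / s := by
    rw [Real.rpow_neg hN0.le, h1, one_div]
  have h3 : Real.logb 2 (s : ℝ) = b := by
    rw [hs]
    push_cast
    rw [Real.logb_pow, Real.logb_self_eq_one (by norm_num), mul_one]
  refine ⟨h1, h2, ?_, ?_, ?_⟩
  · rw [hNr, Real.logb_pow, h3, hc]
    push_cast
    ring
  · rw [sub_eq_add_neg, Real.rpow_add hN0, Real.rpow_one, h2]
  · rw [hNr, ← Real.rpow_natCast, ← Real.rpow_mul hs0.le, ← Real.rpow_natCast]
    norm_num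

theorem main (b s n N : ℕ) (c : ℝ) (hb : 60 ≤ b) (hs : s = 2 ^ b) (hn : n = 16 * s ^ 20)
    (hN : N = s ^ 122000) (hc : c = 1 / 122000) [NeZero s] :
    ∃ G : Set (Fin 15 → Equiv.Perm (Fin n)),
      Nat.card {g // g ∉ G} * 2 ^ s ^ 20 ≤ Nat.card (Fin 15 → Equiv.Perm (Fin n)) ∧
      ∀ g ∈ G, ∀ (K : Type) [Field K] [Fintype K] [Algebra (ZMod 2) K]
      (ω : Fin 15 × Fin (s ^ 13) → K) (x0 : Fin n × Fin (s ^ 13) → K),
      Fintype.card K = s ^ 2000 → Function.Injective ω → Function.Injective x0 →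
      ∀ f : (K × (Fin 60 → K) → ZMod 2) → ZMod 2, f = out (evalCode ω) g x0 1 (2 * s) →
        -- the number of input bits
        Nat.card (K × (Fin 60 → K)) = N ∧
        -- (1) short computations
        (∀ (S : ℕ) (P : NProg (K × (Fin 60 → K)) (ZMod 2) (ZMod 2) S), Det P →
          (S : ℝ) ≤ 2 ^ (N : ℝ) ^ c →
          (Nat.card {I : K × (Fin 60 → K) → ZMod 2 // ∃ l, P.Ends I l (f I) ∧
            (l.length : ℝ) ≤ c * N * Real.logb 2 N} : ℝ) ≤ (1 / 2 + (N : ℝ) ^ (-c)) * 2 ^ N) ∧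
        -- (2) computations of any length
        (∀ (S : ℕ) (P : NProg (K × (Fin 60 → K)) (ZMod 2) (ZMod 2) S), Det P →
          (S : ℝ) ≤ 2 ^ (N : ℝ) ^ c →
          (Nat.card {I : K × (Fin 60 → K) → ZMod 2 // ∃ l, P.Ends I l (f I) ∧
            (N : ℝ) ^ (1 - c) ≤ Nat.card {x // (times l x : ℝ) ≤ c * Real.logb 2 N}} : ℝ) ≤
              (1 / 2 + (N : ℝ) ^ (-c)) * 2 ^ N) ∧
        -- (3) a deterministic pushdown program
        ∃ (Q Γ : Type) (_ : Finite Q) (_ : Finite Γ)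
          (P : PProg (K × (Fin 60 → K)) (ZMod 2) (ZMod 2) Q Γ),
          Nat.card Q ≤ N ^ 3 ∧ Nat.card Γ ≤ N ∧
          ∀ I, P.Outputs I (f I) ∧
            (Nat.card {x // P.Asks I x} : ℝ) ≤ (N : ℝ) ^ ((121 : ℝ) / 122) := by
  obtain ⟨q1, q2, q3, q4, q5⟩ := rpow_facts hs hN hc
  have hs60 : 2 ^ 60 ≤ s := by rw [hs]; exact Nat.pow_le_pow_right (by norm_num) hb
  have hn' : n = 8 * s ^ 20 * 2 := by rw [hn]; ring
  subst hn'
  have hs1 : 1 ≤ s := le_trans (by norm_num) hs60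
  have hs0 : (0 : ℝ) < s := by exact_mod_cast hs1
  have hs1r : (1 : ℝ) ≤ s := by exact_mod_cast hs1
  have hbs : b + 1 ≤ s := by rw [hs]; exact Nat.lt_two_pow_self
  obtain ⟨G, hG, h⟩ := Pool.Agent.Helper96.BTN.main s hs60
  refine ⟨G, hG, fun g hg K _ _ _ ω x0 hK hω hx0 f hf => ?_⟩
  obtain ⟨hD, -, hH, hP⟩ := h g hg K ω x0 hK.ge hω hx0
  have hcard : Nat.card (K × (Fin 60 → K)) = N := by
    rw [Nat.card_prod, Nat.card_fun, Nat.card_eq_fintype_card, Nat.card_eq_fintype_card,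
      Fintype.card_fin, hK, hN]
    ring
  have hcard' : (Fintype.card (K × (Fin 60 → K)) : ℝ) = N := by
    rw [← Nat.card_eq_fintype_card, hcard]
  have hall : (Nat.card (K × (Fin 60 → K) → ZMod 2) : ℝ) = 2 ^ N := by
    rw [Nat.card_fun, hcard, Nat.card_zmod]
    push_cast
    rfl
  -- the bound for rare computations
  have hrare : ∀ (S : ℕ) (P : NProg (K × (Fin 60 → K)) (ZMod 2) (ZMod 2) S), Det P →
      (S : ℝ) ≤ 2 ^ (N : ℝ) ^ c →
      (Nat.card {I : K × (Fin 60 → K) → ZMod 2 // ∃ l, P.Ends I l (f I) ∧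
        Rare (1 / s : ℝ) b l} : ℝ) ≤ (1 / 2 + (N : ℝ) ^ (-c)) * 2 ^ N := by
    intro S P hdet hS
    have hS' : S ≤ 2 ^ s := by
      rw [q1, Real.rpow_natCast] at hS
      exact_mod_cast hS
    have h1s : (1 : ℝ) / s ≤ 1 := by
      rw [div_le_one hs0]
      exact hs1r
    have h1 := hD b S (1 / s) (1 / s) P hs.ge le_rfl h1s le_rfl h1s hS' hdet
    rw [← hf] at h1
    have h2 : (Nat.card {I : K × (Fin 60 → K) → ZMod 2 // ∃ l z, P.Ends I l z ∧
        Rare ((1 / s : ℝ) / 2) b l} : ℝ) ≤ 2 ^ N := by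
      rw [← hall]
      exact_mod_cast Nat.card_le_card_of_injective _ Subtype.val_injective
    rw [hall] at h1
    rw [q2, add_mul]
    refine h1.trans ?_
    linarith
  have hmono : ∀ p q : (K × (Fin 60 → K) → ZMod 2) → Prop, (∀ I, p I → q I) →
      ∀ x : ℝ, (Nat.card {I // q I} : ℝ) ≤ x → (Nat.card {I // p I} : ℝ) ≤ x := by
    intro p q hpq x hx
    refine le_trans ?_ hx
    have : Nat.card {I // p I} ≤ Nat.card {I // q I} :=
      Nat.card_le_card_of_injective (fun I : {I // p I} => (⟨I.1, hpq I.1 I.2⟩ : {I // q I}))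
        (fun a a' haa => Subtype.ext (congrArg (fun z : {I // q I} => z.1) haa))
    exact_mod_cast this
  refine ⟨hcard, ?_, ?_, ?_⟩
  · intro S P hdet hS
    refine hmono _ _ (fun I hI => ?_) _ (hrare S P hdet hS)
    obtain ⟨l, hl1, hl2⟩ := hI
    refine ⟨l, hl1, hH b (1 / s) l (hl2.trans ?_)⟩
    rw [hcard']
    have e1 : c * N * Real.logb 2 N = N * b := by
      rw [mul_comm c, mul_assoc, q3]
    rw [e1]
    have e2 : ((b : ℝ) + 1) ≤ s := by exact_mod_cast hbs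
    have e3 : (b : ℝ) ≤ (1 - 1 / s) * (b + 1) := by
      have : ((b : ℝ) + 1) / s ≤ 1 := (div_le_one hs0).2 e2
      have e4 : (1 - 1 / (s : ℝ)) * (b + 1) = b + 1 - ((b : ℝ) + 1) / s := by ring
      rw [e4]
      linarith
    rw [mul_comm]
    exact mul_le_mul_of_nonneg_right e3 (Nat.cast_nonneg _)
  · intro S P hdet hS
    refine hmono _ _ (fun I hI => ?_) _ (hrare S P hdet hS)
    obtain ⟨l, hl1, hl2⟩ := hI
    refine ⟨l, hl1, ?_⟩
    classical
    rw [q3, q4] at hl2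
    refine ⟨Finset.univ.filter (fun x => (times l x : ℝ) ≤ b), ?_, ?_⟩
    · rw [hcard', mul_comm]
      refine hl2.trans ?_
      rw [Nat.card_eq_fintype_card, Fintype.card_subtype]
    · intro z hz
      have h1 : (times l z : ℝ) ≤ b := (Finset.mem_filter.1 hz).2
      have h2 : times l z ≤ b := by exact_mod_cast h1
      exact h2
  · obtain ⟨Q, Γ, hQ, hΓ, P, p1, p2, p3⟩ := hP
    refine ⟨Q, Γ, hQ, hΓ, P, by rw [← hcard]; exact p1, by rw [← hcard]; exact p2, fun I => ?_⟩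
    obtain ⟨r1, r2⟩ := p3 I
    rw [← hf] at r1
    refine ⟨r1, ?_⟩
    rw [q5]
    rw [hcard, hK, hN] at r2
    have e1 : (s ^ 122000) ^ 2 = (s ^ 121000) ^ 2 * s ^ 2000 := by ring
    rw [e1] at r2
    have e2 : Nat.card {x // P.Asks I x} ^ 2 ≤ (s ^ 121000) ^ 2 :=
      Nat.le_of_mul_le_mul_right r2 (pow_pos hs1 _)
    have e3 : Nat.card {x // P.Asks I x} ≤ s ^ 121000 := (Nat.pow_le_pow_iff_left two_ne_zero).1 e2
    exact_mod_cast e3

end Pool.Agent.Helper60.BL
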