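import Mathlib.FieldTheory.Finite.GaloisField
import Pool.Agent.Helper60.BL.Main
import Pool.Agent.Helper73.CL.Relabel

/-!
# Boolean programs of length `c N log N`: the theorem for functions of `N` bits
-/

set_option autoImplicit false

namespace Pool.Agent.Helper60.BL

open Pool.Agent.Helper19.NF Pool.Agent.Helper74.NW Pool.Agent.Helper96.BT
open Pool.Agent.Helper96.PH (Det)
open Pool.Agent.Helper43.BT (evalCode)
open Pool.Agent.Helper99.NK (times)
open Pool.Agent.Helper73.CL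

theorem det_relN {C C' W Z : Type} {S : ℕ} (e : C → C') (P : NProg C W Z S) (h : Det P) :
    Det (relN e P) := by
  intro s c' next hs
  obtain ⟨c, -, hc⟩ := relN_inl' hs
  exact h s c next hc

theorem times_map {C C' : Type} (e : C ≃ C') (l : List C) (x : C) :
    times (l.map e) (e x) = times l x := by
  classical
  rw [← Pool.Agent.Helper99.NK.count_eq_times inferInstance inferInstance (l.map e) (e x),
    ← Pool.Agent.Helper99.NK.count_eq_times inferInstance inferInstance l x]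
  exact List.count_map_of_injective l e e.injective x

theorem card_mono {α β : Type} [Finite β] {p : α → Prop} {q : β → Prop} (F : α → β)
    (hF : Function.Injective F) (h : ∀ a, p a → q (F a)) {x : ℝ}
    (hx : (Nat.card {b // q b} : ℝ) ≤ x) : (Nat.card {a // p a} : ℝ) ≤ x := by
  refine le_trans ?_ hx
  have : Nat.card {a // p a} ≤ Nat.card {b // q b} :=
    Nat.card_le_card_of_injective (fun a : {a // p a} => (⟨F a.1, h a.1 a.2⟩ : {b // q b}))
      (fun a a' haa => Subtype.ext (hF (congrArg (fun z : {b // q b} => z.1) haa)))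
  exact_mod_cast this

theorem crisp : ∃ c : ℝ, 0 < c ∧ ∀ N₀ : ℕ, ∃ N ≥ N₀, ∃ f : (Fin N → ZMod 2) → ZMod 2,
    -- (1) short computations
    (∀ (S : ℕ) (P : NProg (Fin N) (ZMod 2) (ZMod 2) S), Det P → (S : ℝ) ≤ 2 ^ (N : ℝ) ^ c →
      (Nat.card {I : Fin N → ZMod 2 // ∃ l, P.Ends I l (f I) ∧
        (l.length : ℝ) ≤ c * N * Real.logb 2 N} : ℝ) ≤ (1 / 2 + (N : ℝ) ^ (-c)) * 2 ^ N) ∧
    -- (2) computations of any length
    (∀ (S : ℕ) (P : NProg (Fin N) (ZMod 2) (ZMod 2) S), Det P → (S : ℝ) ≤ 2 ^ (N : ℝ) ^ c →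
      (Nat.card {I : Fin N → ZMod 2 // ∃ l, P.Ends I l (f I) ∧
        (N : ℝ) ^ (1 - c) ≤ Nat.card {x // (times l x : ℝ) ≤ c * Real.logb 2 N}} : ℝ) ≤
          (1 / 2 + (N : ℝ) ^ (-c)) * 2 ^ N) ∧
    -- (3) a deterministic pushdown program
    ∃ (Q Γ : Type) (_ : Finite Q) (_ : Finite Γ) (P : PProg (Fin N) (ZMod 2) (ZMod 2) Q Γ),
      Nat.card Q ≤ N ^ 3 ∧ Nat.card Γ ≤ N ∧
      ∀ I, P.Outputs I (f I) ∧ (Nat.card {x // P.Asks I x} : ℝ) ≤ (N : ℝ) ^ (1 - c) := by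
  refine ⟨1 / 122000, by norm_num, fun N₀ => ?_⟩
  -- the parameters
  obtain ⟨b, hb1, hb2⟩ : ∃ b : ℕ, 60 ≤ b ∧ N₀ ≤ b := ⟨max 60 N₀, le_max_left _ _, le_max_right _ _⟩
  obtain ⟨s, hs⟩ : ∃ s : ℕ, s = 2 ^ b := ⟨_, rfl⟩
  obtain ⟨N, hN⟩ : ∃ N : ℕ, N = s ^ 122000 := ⟨_, rfl⟩
  obtain ⟨c, hc⟩ : ∃ c : ℝ, c = 1 / 122000 := ⟨_, rfl⟩
  rw [← hc]
  have hs2 : 2 ≤ s := by
    rw [hs]
    calc 2 = 2 ^ 1 := by norm_num
      _ ≤ 2 ^ b := Nat.pow_le_pow_right (by norm_num) (by omega)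
  have hs1 : 1 ≤ s := by omega
  have : NeZero s := ⟨by omega⟩
  have hbs : b ≤ s := by rw [hs]; exact Nat.lt_two_pow_self.le
  have hsN : s ≤ N := by
    rw [hN]
    exact Nat.le_self_pow (Nat.succ_ne_zero 121999) s
  refine ⟨N, by omega, ?_⟩
  obtain ⟨G, hG, h⟩ := main b s (16 * s ^ 20) N c hb1 hs rfl hN hc
  -- a good choice of the permutations
  obtain ⟨g, hg⟩ : ∃ g, g ∈ G := by
    by_contra hcon
    push Not at hcon
    have h1 : Nat.card {g // g ∉ G} = Nat.card (Fin 15 → Equiv.Perm (Fin (16 * s ^ 20))) :=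
      Nat.card_congr (Equiv.subtypeUnivEquiv hcon)
    rw [h1] at hG
    have h2 : 0 < Nat.card (Fin 15 → Equiv.Perm (Fin (16 * s ^ 20))) := Nat.card_pos
    have h3 : 2 ≤ 2 ^ s ^ 20 := by
      calc 2 = 2 ^ 1 := by norm_num
        _ ≤ 2 ^ s ^ 20 := Nat.pow_le_pow_right (by norm_num) (Nat.one_le_pow _ _ hs1)
    have h4 := Nat.mul_le_mul_left (Nat.card (Fin 15 → Equiv.Perm (Fin (16 * s ^ 20)))) h3
    omega
  -- the field
  have : Fact (Nat.Prime 2) := ⟨Nat.prime_two⟩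
  obtain ⟨K, _, _, _, hK⟩ : ∃ (K : Type) (_ : Field K) (_ : Fintype K) (_ : Algebra (ZMod 2) K),
      Fintype.card K = s ^ 2000 := by
    have h1 : Nat.card (GaloisField 2 (b * 2000)) = 2 ^ (b * 2000) :=
      GaloisField.card 2 (b * 2000) (by omega)
    have h2 : Finite (GaloisField 2 (b * 2000)) := inferInstance
    let _ := Fintype.ofFinite (GaloisField 2 (b * 2000))
    refine ⟨GaloisField 2 (b * 2000), inferInstance, inferInstance, inferInstance, ?_⟩
    rw [← Nat.card_eq_fintype_card, h1, hs, pow_mul]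
  have hpow : ∀ i : ℕ, i ≤ 2000 → s ^ i ≤ s ^ 2000 := fun i hi => Nat.pow_le_pow_right hs1 hi
  have h16 : 16 ≤ s ^ 4 := by
    calc 16 = 2 ^ 4 := by norm_num
      _ ≤ s ^ 4 := Nat.pow_le_pow_left hs2 4
  obtain ⟨ω⟩ : Nonempty ((Fin 15 × Fin (s ^ 13)) ↪ K) := by
    apply Function.Embedding.nonempty_of_card_le
    rw [Fintype.card_prod, Fintype.card_fin, Fintype.card_fin, hK]
    calc 15 * s ^ 13 ≤ s ^ 4 * s ^ 13 := Nat.mul_le_mul_right _ (by omega)
      _ = s ^ 17 := by ring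
      _ ≤ s ^ 2000 := hpow 17 (by norm_num)
  obtain ⟨x0⟩ : Nonempty ((Fin (16 * s ^ 20) × Fin (s ^ 13)) ↪ K) := by
    apply Function.Embedding.nonempty_of_card_le
    rw [Fintype.card_prod, Fintype.card_fin, Fintype.card_fin, hK]
    calc 16 * s ^ 20 * s ^ 13 ≤ s ^ 4 * s ^ 20 * s ^ 13 :=
          Nat.mul_le_mul_right _ (Nat.mul_le_mul_right _ h16)
      _ = s ^ 37 := by ring
      _ ≤ s ^ 2000 := hpow 37 (by norm_num)
  obtain ⟨f0, hf0⟩ : ∃ f : (K × (Fin 60 → K) → ZMod 2) → ZMod 2,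
      f = out (evalCode ω) g x0 1 (2 * s) := ⟨_, rfl⟩
  obtain ⟨hcard, m1, m2, m3⟩ := h g hg K ω x0 hK ω.injective x0.injective f0 hf0
  -- the names of the bits
  have e : Fin N ≃ K × (Fin 60 → K) := by
    have h1 : Nat.card (Fin N) = Nat.card (K × (Fin 60 → K)) := by
      rw [hcard, Nat.card_eq_fintype_card, Fintype.card_fin]
    exact Classical.choice (Finite.card_eq.1 h1)
  have hFinj : Function.Injective
      (fun (I : Fin N → ZMod 2) (x : K × (Fin 60 → K)) => I (e.symm x)) := by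
    intro I I' hI
    funext y
    have := congrFun hI (e y)
    simpa using this
  have hback : ∀ I : Fin N → ZMod 2, (fun c => (fun x => I (e.symm x)) (e c)) = I := by
    intro I
    funext y
    simp
  refine ⟨fun I => f0 (fun x => I (e.symm x)), ?_, ?_, ?_⟩
  · intro S P hdet hS
    refine card_mono _ hFinj ?_ (m1 S (relN e P) (det_relN e P hdet) hS)
    rintro I ⟨l, hl1, hl2⟩
    refine ⟨l.map e, ends_relN ?_, by rw [List.length_map]; exact hl2⟩
    rw [hback]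
    exact hl1
  · intro S P hdet hS
    refine card_mono _ hFinj ?_ (m2 S (relN e P) (det_relN e P hdet) hS)
    rintro I ⟨l, hl1, hl2⟩
    refine ⟨l.map e, ends_relN ?_, hl2.trans ?_⟩
    · rw [hback]
      exact hl1
    · refine card_mono (fun y => e y) e.injective ?_ le_rfl
      intro y hy
      rw [times_map]
      exact hy
  · obtain ⟨Q, Γ, hQ, hΓ, P, p1, p2, p3⟩ := m3
    refine ⟨Q, Γ, hQ, hΓ, relP e.symm P, p1, p2, fun I => ?_⟩
    obtain ⟨r1, r2⟩ := p3 (fun x => I (e.symm x))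
    refine ⟨outputs_relP r1, ?_⟩
    have h1 : (N : ℝ) ^ ((121 : ℝ) / 122) ≤ (N : ℝ) ^ (1 - c) := by
      apply Real.rpow_le_rpow_of_exponent_le
      · exact_mod_cast hs1.trans hsN
      · rw [hc]; norm_num
    refine card_mono (fun y => e y) e.injective ?_ (r2.trans h1)
    intro y hy
    obtain ⟨x, hx1, hx2⟩ := asks_relP hy
    rw [← hx1, Equiv.apply_symm_apply]
    exact hx2

end Pool.Agent.Helper60.BL
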